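import Pool.Agent.U541.FM.Cat

/-!
Flats of maximal dimension which are close on a large ball are within a fixed distance of each other at
its centre.
-/

set_option autoImplicit false

namespace Pool.Agent.U541.FV

open Set Filter Topology Metric

open Pool.Agent.Y34.HB in
theorem corr {X : Type*} [MetricSpace X] {G : Type*} [Group G] [MulAction G X] (hG : Geo X G)
    (k : ℕ) (M0 : ℝ) (hM0 : ∀ (f h : Pool.Agent.Y34.HB.E k → X)
      (e : Pool.Agent.Y34.HB.E k → Pool.Agent.Y34.HB.E k) (d : ℝ), Isometry f → Isometry h →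
      Isometry e → Rect f h e d → d ≤ M0) (M1 : ℝ) :
    ∃ E0 : ℕ, ∀ f h : Pool.Agent.Y34.HB.E k → X, Isometry f → Isometry h →
      (∀ z, ‖z‖ ≤ E0 → ∃ w, dist (f z) (h w) ≤ M1) → ∃ w, dist (f 0) (h w) ≤ M0 + 1 := by
  classical
  have := hG.proper
  have := hG.isom
  obtain ⟨K, hK, hGK⟩ := hG.cc
  have hpar := Pool.Agent.Y73.HB.t Pool.Agent.Y34.HB.t_conv Pool.Agent.Y34.HB.t_const
  by_contra hcon
  push Not at hcon
  have key : ∀ n : ℕ, ∃ f h : Pool.Agent.Y34.HB.E k → X, Isometry f ∧ Isometry h ∧ f 0 ∈ K ∧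
      dist (f 0) (h 0) ≤ M1 ∧ (∀ z, ‖z‖ ≤ n → ∃ w, dist (f z) (h w) ≤ M1) ∧
      ∀ w, M0 + 1 < dist (f 0) (h w) := by
    intro n
    obtain ⟨f, h, hf, hh, h1, h2⟩ := hcon n
    obtain ⟨g, hg⟩ := hGK (f 0)
    obtain ⟨v, hv⟩ := h1 0 (by rw [norm_zero]; positivity)
    refine ⟨fun z => g • f z, fun z => g • h (v + z), (isometry_smul X g).comp hf,
      (isometry_smul X g).comp (hh.comp (IsometryEquiv.addLeft v).isometry), hg, ?_, ?_, ?_⟩
    · simp only [dist_smul, add_zero]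
      exact hv
    · intro z hz
      obtain ⟨w, hw⟩ := h1 z hz
      refine ⟨w - v, ?_⟩
      simp only [dist_smul, add_sub_cancel]
      exact hw
    · intro w
      simp only [dist_smul]
      exact h2 _
  choose F H hF hH hF0 hFH h1 h2 using key
  obtain ⟨f, hf, -, hfl⟩ := Pool.Agent.Y34.HB.t_lim X k K hK F hF hF0
  have hK' : IsCompact (cthickening M1 K) := hK.cthickening
  have hH0 : ∀ n, H n 0 ∈ cthickening M1 K := fun n =>
    mem_cthickening_of_dist_le (H n 0) (F n 0) M1 K (hF0 n) (by rw [dist_comm]; exact hFH n)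
  obtain ⟨h, hh, -, hhl⟩ := Pool.Agent.Y34.HB.t_lim X k _ hK' H hH hH0
  have hnear : Near f h := by
    refine ⟨M1 + 2, fun z => ?_⟩
    have hlarge : ∀ᶠ n : ℕ in (hyperfilter ℕ : Filter ℕ), ‖z‖ ≤ n := by
      obtain ⟨N, hN⟩ := exists_nat_ge ‖z‖
      have h3 : ∀ᶠ n : ℕ in (atTop : Filter ℕ), ‖z‖ ≤ n := by
        filter_upwards [eventually_ge_atTop N] with n hn
        exact hN.trans (by exact_mod_cast hn)
      exact Nat.hyperfilter_le_atTop h3
    obtain ⟨n, ⟨hn1, hn2⟩, hn3⟩ := ((hlarge.and (hfl ‖z‖ 1 one_pos)).and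
      (hhl (M1 + ‖z‖ + M1) 1 one_pos)).exists
    obtain ⟨w, hw⟩ := h1 n z hn1
    have hwn : ‖w‖ ≤ M1 + ‖z‖ + M1 := by
      have h3 : ‖w‖ = dist (H n w) (H n 0) := by rw [(hH n).dist_eq, dist_zero_right]
      have h4 : dist (F n z) (F n 0) = ‖z‖ := by rw [(hF n).dist_eq, dist_zero_right]
      rw [h3]
      have t1 := dist_triangle (H n w) (F n z) (H n 0)
      have t2 := dist_triangle (F n z) (F n 0) (H n 0)
      rw [dist_comm (H n w) (F n z)] at t1
      have h5 := hFH n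
      linarith
    refine (infDist_le_dist_of_mem (mem_range_self w)).trans ?_
    have t1 := dist_triangle (f z) (F n z) (h w)
    have t2 := dist_triangle (F n z) (H n w) (h w)
    have t3 := hn2 z le_rfl
    have t4 := hn3 w hwn
    rw [dist_comm (F n z) (f z)] at t3
    linarith
  obtain ⟨e, he⟩ := hpar X hG.cn k f h hf hh hnear
  have hle : infDist (f 0) (range h) ≤ M0 := hM0 f h e _ hf hh e.isometry he
  obtain ⟨_, ⟨w, rfl⟩, hw⟩ := (infDist_lt_iff ⟨h 0, mem_range_self 0⟩).1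
    (lt_of_le_of_lt hle (by linarith : M0 < M0 + 1 / 4))
  obtain ⟨n, hn1, hn2⟩ := ((hfl 0 (1 / 4) (by norm_num)).and (hhl ‖w‖ (1 / 4) (by norm_num))).exists
  have t1 := dist_triangle (F n 0) (f 0) (H n w)
  have t2 := dist_triangle (f 0) (h w) (H n w)
  have t3 := hn1 0 (by rw [norm_zero])
  have t4 := hn2 w le_rfl
  rw [dist_comm (H n w) (h w)] at t4
  have t5 := h2 n w
  linarith

end Pool.Agent.U541.FV
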