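import Pool.Agent.U541.FV.Corr
import Pool.Agent.U541.FM.Conv

/-!
Coarse views of a flat of maximal dimension: bounded in number, or at least linear.
-/

set_option autoImplicit false

namespace Pool.Agent.U541.FV

open Set Metric Pool.Agent.Y34.HB

section
variable {X : Type*} [MetricSpace X] {G : Type*} [Group G] [MulAction G X] [IsIsometricSMul G X]
  {k : ℕ}

/-- in the ball of radius `r` about `o` the flat `x⁻¹ f` is in the `n`-neighbourhood of `y⁻¹ f` -/
def Half (n r : ℕ) (o : X) (f : E k → X) (x y : G) : Prop :=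
  ∀ z, dist o (x⁻¹ • f z) ≤ r → ∃ w, dist (x⁻¹ • f z) (y⁻¹ • f w) ≤ n

omit [IsIsometricSMul G X] in
theorem Half.mono {n r r' : ℕ} (hr : r ≤ r') {o : X} {f : E k → X} {x y : G}
    (h : Half n r' o f x y) : Half n r o f x y := fun z hz =>
  h z (hz.trans (by exact_mod_cast hr))

omit [IsIsometricSMul G X] in
theorem Half.comp {n m r : ℕ} {o : X} {f : E k → X} {x y z : G} (h1 : Half n r o f x y)
    (h2 : Half m (r + n) o f y z) : Half (n + m) r o f x z := by
  intro u hu
  obtain ⟨v, hv⟩ := h1 u hu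
  obtain ⟨w, hw⟩ := h2 v (by
    have := dist_triangle o (x⁻¹ • f u) (y⁻¹ • f v)
    push_cast
    linarith)
  refine ⟨w, ?_⟩
  have := dist_triangle (x⁻¹ • f u) (y⁻¹ • f v) (z⁻¹ • f w)
  push_cast
  linarith

theorem dist_inv_smul' (w : G) (o p : X) : dist o (w⁻¹ • p) = dist (w • o) p := by
  rw [← dist_smul w o, smul_inv_smul]

theorem Half.shift {n m r : ℕ} {o : X} {f : E k → X} {x y w : G} (h : Half n (r + m) o f x y)
    (hwm : dist o (w • o) ≤ m) : Half n r o f (x * w) (y * w) := by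
  intro z hz
  rw [mul_inv_rev, mul_smul, dist_inv_smul'] at hz
  obtain ⟨v, hv⟩ := h z (by
    have := dist_triangle o (w • o) (x⁻¹ • f z)
    push_cast
    linarith)
  refine ⟨v, ?_⟩
  rw [mul_inv_rev, mul_smul, mul_inv_rev, mul_smul, dist_smul]
  exact hv

/-- the views from `x` and `y` are within `R` of each other in the ball of radius `r` -/
def Sim (R r : ℕ) (o : X) (f : E k → X) (x y : G) : Prop :=
  Half R r o f x y ∧ Half R r o f y x

omit [IsIsometricSMul G X] in
theorem Sim.symm {R r : ℕ} {o : X} {f : E k → X} {x y : G} (h : Sim R r o f x y) :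
    Sim R r o f y x := ⟨h.2, h.1⟩

omit [IsIsometricSMul G X] in
theorem Sim.mono {R r r' : ℕ} (hr : r ≤ r') {o : X} {f : E k → X} {x y : G}
    (h : Sim R r' o f x y) : Sim R r o f x y := ⟨h.1.mono hr, h.2.mono hr⟩

theorem Sim.shift {R m r : ℕ} {o : X} {f : E k → X} {x y w : G} (h : Sim R (r + m) o f x y)
    (hwm : dist o (w • o) ≤ m) : Sim R r o f (x * w) (y * w) :=
  ⟨h.1.shift hwm, h.2.shift hwm⟩

omit [IsIsometricSMul G X] in
theorem Sim.refl {R r : ℕ} {o : X} {f : E k → X} (x : G) : Sim R r o f x x := by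
  constructor <;>
  · intro z _
    exact ⟨z, by rw [dist_self]; positivity⟩

/-- `x o` is at distance at most `D` from the flat `f` -/
def Fr (D : ℕ) (o : X) (f : E k → X) (x : G) : Prop := ∃ z, dist (x • o) (f z) ≤ D

/-- the properties of the flat `f` -/
structure Good (G : Type*) [Group G] [MulAction G X] (o : X) (f : E k → X) (R D L : ℕ) :
    Prop where
  isom : Isometry f
  cov : ∀ p : X, ∃ g : G, dist (g • o) p ≤ D
  corr : ∀ (r : ℕ) (x y : G), Half (R + R) (r + L) o f x y → Half R r o f x y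
  DL : D ≤ L

variable {o : X} {f : E k → X} {R D L : ℕ}

omit [IsIsometricSMul G X] in
theorem Sim.trans (h : Good G o f R D L) {r : ℕ} {x y z : G}
    (h1 : Sim R (r + (R + L)) o f x y) (h2 : Sim R (r + (R + L)) o f y z) :
    Sim R r o f x z := by
  constructor
  · refine h.corr _ _ _ ?_
    exact (h1.1.mono (by omega)).comp (h2.1.mono (by omega))
  · refine h.corr _ _ _ ?_
    exact (h2.2.mono (by omega)).comp (h1.2.mono (by omega))

omit [IsIsometricSMul G X] in
theorem conn (h : Good G o f R D L) (P : G → Prop) (h0 : ∃ a : G, Fr D o f a ∧ P a)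
    (hs : ∀ a a' : G, Fr D o f a → Fr D o f a' → dist (a • o) (a' • o) ≤ ((D + D + 1 : ℕ) : ℝ) →
      P a → P a') : ∀ a : G, Fr D o f a → P a := by
  obtain ⟨a, ⟨za, hza⟩, hPa⟩ := h0
  rintro b ⟨zb, hzb⟩
  choose x hx using fun z => h.cov (f z)
  have hxF : ∀ z, Fr D o f (x z) := fun z => ⟨z, hx z⟩
  obtain ⟨N, hN⟩ := exists_nat_gt (dist za zb)
  have hN0 : (0 : ℝ) < N := lt_of_le_of_lt dist_nonneg hN
  have key : ∀ i : ℕ, P (x (AffineMap.lineMap za zb ((i : ℝ) / N))) := by
    intro i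
    induction i with
    | zero =>
      refine hs a _ ⟨za, hza⟩ (hxF _) ?_ hPa
      rw [Nat.cast_zero, zero_div, AffineMap.lineMap_apply_zero]
      have t := dist_triangle (a • o) (f za) (x za • o)
      rw [dist_comm (f za) (x za • o)] at t
      have t2 := hx za
      push_cast
      linarith
    | succ i ih =>
      refine hs _ _ (hxF _) (hxF _) ?_ ih
      set u := AffineMap.lineMap za zb ((i : ℝ) / N) with hu
      set v := AffineMap.lineMap za zb (((i + 1 : ℕ) : ℝ) / N) with hv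
      have e : dist u v ≤ 1 := by
        rw [hu, hv, dist_lineMap_lineMap, Real.dist_eq]
        have e2 : (i : ℝ) / N - ((i + 1 : ℕ) : ℝ) / N = -(1 / N) := by
          push_cast
          field_simp
          ring
        rw [e2, abs_neg, abs_of_pos (by positivity), div_mul_eq_mul_div, one_mul, div_le_one hN0]
        exact hN.le
      have t := dist_triangle (x u • o) (f u) (x v • o)
      have t2 := dist_triangle (f u) (f v) (x v • o)
      rw [dist_comm (f v) (x v • o), h.isom.dist_eq] at t2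
      have t3 := hx u
      have t4 := hx v
      push_cast
      linarith
  refine hs _ b (hxF _) ⟨zb, hzb⟩ ?_ (key N)
  rw [div_self hN0.ne', AffineMap.lineMap_apply_one]
  have t := dist_triangle (x zb • o) (f zb) (b • o)
  rw [dist_comm (f zb) (b • o)] at t
  have t2 := hx zb
  push_cast
  linarith

/-- an agreement of two views propagates to the whole flat -/
theorem propagate (h : Good G o f R D L) {r : ℕ} {F : Finset G}
    (hF : ∀ x ∈ F, ∀ y ∈ F, Sim R r o f x y → x = y)
    (hmax : ∀ x : G, Fr (D + R) o f x →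
      ∃ y ∈ F, Sim R (r + (3 * (R + L) + (D + D + 1))) o f y x) {a b : G} (ha : Fr D o f a)
    (hab : Sim R (r + (2 * (R + L) + (D + D + 1))) o f a b) :
    ∀ a', Fr D o f a' → Fr (D + R) o f (b * a⁻¹ * a') := by
  have hnear : ∀ (a' b' : G) (r' : ℕ), D ≤ r' → Fr D o f a' → Sim R r' o f a' b' →
      Fr (D + R) o f b' := by
    rintro a' b' r' hr' ⟨z, hz⟩ hs
    obtain ⟨w, hw⟩ := hs.1 z (by
      rw [dist_inv_smul']
      exact hz.trans (by exact_mod_cast hr'))
    refine ⟨w, ?_⟩
    rw [← dist_inv_smul']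
    have t := dist_triangle o (a'⁻¹ • f z) (b'⁻¹ • f w)
    rw [dist_inv_smul' a' o (f z)] at t
    push_cast
    linarith
  have hDL := h.DL
  have key : ∀ a' : G, Fr D o f a' →
      Sim R (r + (2 * (R + L) + (D + D + 1))) o f a' (b * a⁻¹ * a') := by
    refine conn h _ ⟨a, ha, by rw [inv_mul_cancel_right]; exact hab⟩ ?_
    intro a' a'' ha' ha'' hd h1
    have e1 : a' * (a'⁻¹ * a'') = a'' := mul_inv_cancel_left _ _
    have e2 : b * a⁻¹ * a' * (a'⁻¹ * a'') = b * a⁻¹ * a'' := by
      rw [mul_assoc (b * a⁻¹), e1]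
    have h2 : Sim R (r + 2 * (R + L)) o f (a' * (a'⁻¹ * a''))
        (b * a⁻¹ * a' * (a'⁻¹ * a'')) := by
      refine Sim.shift (m := D + D + 1) (h1.mono (by omega)) ?_
      rw [← dist_smul a' o, smul_smul, e1]
      exact hd
    rw [e1, e2] at h2
    obtain ⟨x1, hx1, s1⟩ := hmax a'' (hnear a'' a'' (D + 0) (by omega) ha'' (Sim.refl _))
    obtain ⟨y1, hy1, s2⟩ := hmax _ (hnear a'' _ _ (by omega) ha'' h2)
    have h3 : Sim R (r + (R + L)) o f x1 (b * a⁻¹ * a'') :=
      Sim.trans h (s1.mono (by omega)) (h2.mono (by omega))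
    have h4 : Sim R r o f x1 y1 := Sim.trans h h3 (s2.symm.mono (by omega))
    have h5 := hF x1 hx1 y1 hy1 h4
    subst h5
    exact Sim.trans h (s1.symm.mono (by omega)) (s2.mono (by omega))
  intro a' ha'
  exact hnear a' _ _ (by omega) ha' (key a' ha')

theorem sub_of_max (h : Good G o f R D L) {r : ℕ} {F : Finset G}
    (hF : ∀ x ∈ F, ∀ y ∈ F, Sim R r o f x y → x = y)
    (hmax : ∀ x : G, Fr (D + R) o f x →
      ∃ y ∈ F, Sim R (r + (3 * (R + L) + (D + D + 1))) o f y x) :
    ∃ C : ℝ, ∀ a, ∃ g : G, Near (fun z => g • f z) f ∧ dist (g • f 0) (f a) ≤ C := by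
  classical
  choose x hx using fun z => h.cov (f z)
  have hxF : ∀ z, Fr D o f (x z) := fun z => ⟨z, hx z⟩
  have hrep : ∀ y : G, ∃ a : G, Fr D o f a ∧ ((∃ a' : G, Fr D o f a' ∧
      Sim R (r + (3 * (R + L) + (D + D + 1))) o f y a') →
        Sim R (r + (3 * (R + L) + (D + D + 1))) o f y a) := by
    intro y
    by_cases hy : ∃ a' : G, Fr D o f a' ∧ Sim R (r + (3 * (R + L) + (D + D + 1))) o f y a'
    · obtain ⟨a', h1, h2⟩ := hy
      exact ⟨a', h1, fun _ => h2⟩
    · exact ⟨x 0, hxF 0, fun h => absurd h hy⟩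
  choose rep hrep1 hrep2 using hrep
  obtain ⟨C, hC⟩ := (F.finite_toSet.image fun y => dist (rep y • o) (f 0)).bddAbove
  refine ⟨C + D, fun a => ?_⟩
  have hmono : Fr (D + R) o f (x a) := ⟨a, (hx a).trans (by push_cast; linarith [(Nat.cast_nonneg R : (0 : ℝ) ≤ R)])⟩
  obtain ⟨y, hy, s1⟩ := hmax (x a) hmono
  have s2 := hrep2 y ⟨x a, hxF a, s1⟩
  have s3 : Sim R (r + (2 * (R + L) + (D + D + 1))) o f (rep y) (x a) :=
    Sim.trans h (s2.symm.mono (by omega)) (s1.mono (by omega))
  have hp := propagate h hF hmax (hrep1 y) s3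
  refine ⟨x a * (rep y)⁻¹, ⟨D + (D + R), fun z => ?_⟩, ?_⟩
  · obtain ⟨w, hw⟩ := hp (x z) (hxF z)
    refine (infDist_le_dist_of_mem (mem_range_self w)).trans ?_
    have t := dist_triangle ((x a * (rep y)⁻¹) • f z) ((x a * (rep y)⁻¹ * x z) • o) (f w)
    rw [mul_smul (x a * (rep y)⁻¹) (x z) o, dist_smul, dist_comm (f z) (x z • o)] at t
    have t2 := hx z
    rw [mul_smul (x a * (rep y)⁻¹) (x z) o] at hw
    push_cast at hw
    linarith
  · have t := dist_triangle ((x a * (rep y)⁻¹) • f 0) (x a • o) (f a)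
    have e : dist ((x a * (rep y)⁻¹) • f 0) (x a • o) = dist (rep y • o) (f 0) := by
      rw [mul_smul, dist_smul, ← dist_smul (rep y), smul_inv_smul, dist_comm]
    have t2 := hx a
    have t3 : dist (rep y • o) (f 0) ≤ C := hC ⟨y, hy, rfl⟩
    rw [e] at t
    linarith

theorem many (h : Good G o f R D L)
    (hno : ¬ ∃ C : ℝ, ∀ a, ∃ g : G, Near (fun z => g • f z) f ∧ dist (g • f 0) (f a) ≤ C) (m : ℕ) :
    ∃ F : Finset G, F.card = m + 1 ∧ (∀ x ∈ F, Fr (D + R) o f x) ∧
      ∀ x ∈ F, ∀ y ∈ F, Sim R ((3 * (R + L) + (D + D + 1)) * m) o f x y → x = y := by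
  classical
  obtain ⟨x0, hx0⟩ := h.cov (f 0)
  have hx0' : Fr (D + R) o f x0 :=
    ⟨0, hx0.trans (by push_cast; linarith [(Nat.cast_nonneg R : (0 : ℝ) ≤ R)])⟩
  induction m with
  | zero =>
    refine ⟨{x0}, rfl, ?_, ?_⟩
    · intro x hx
      rw [Finset.mem_singleton.1 hx]
      exact hx0'
    · intro x hx y hy _
      rw [Finset.mem_singleton.1 hx, Finset.mem_singleton.1 hy]
  | succ m ih =>
    obtain ⟨F, hF1, hF2, hF3⟩ := ih
    by_contra hcon
    apply hno
    refine sub_of_max h hF3 (fun x hx => ?_)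
    by_contra hcon2
    push Not at hcon2
    apply hcon
    have hxF : x ∉ F := fun hx' => hcon2 x hx' (Sim.refl x)
    have e : (3 * (R + L) + (D + D + 1)) * (m + 1) =
      (3 * (R + L) + (D + D + 1)) * m + (3 * (R + L) + (D + D + 1)) := by ring
    refine ⟨insert x F, by rw [Finset.card_insert_of_notMem hxF, hF1], ?_, ?_⟩
    · intro y hy
      rcases Finset.mem_insert.1 hy with rfl | hy
      · exact hx
      · exact hF2 y hy
    · intro y hy z hz hs
      rw [e] at hs
      rcases Finset.mem_insert.1 hy with h1 | h1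
      · rcases Finset.mem_insert.1 hz with h2 | h2
        · rw [h1, h2]
        · rw [h1] at hs
          exact absurd hs.symm (hcon2 z h2)
      · rcases Finset.mem_insert.1 hz with h2 | h2
        · rw [h2] at hs
          exact absurd hs (hcon2 y h1)
        · exact hF3 y h1 z h2 (hs.mono (by omega))

/-- frames which are close to the flat -/
theorem many' (h : Good G o f R D L) (W : Finset G)
    (hW : ∀ w : G, dist o (w • o) ≤ ((D + D + R : ℕ) : ℝ) → w ∈ W)
    (hW' : ∀ w ∈ W, dist o (w • o) ≤ ((D + D + R : ℕ) : ℝ))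
    (hno : ¬ ∃ C : ℝ, ∀ a, ∃ g : G, Near (fun z => g • f z) f ∧ dist (g • f 0) (f a) ≤ C) (m : ℕ) :
    ∃ F : Finset G, F.card = m + 1 ∧ (∀ x ∈ F, Fr D o f x) ∧
      ∀ x ∈ F, ∀ y ∈ F,
        Sim R (((3 * (R + L) + (D + D + 1)) * W.card + (D + D + R)) * m) o f x y → x = y := by
  classical
  rcases Nat.eq_zero_or_pos m with rfl | hm
  · obtain ⟨x0, hx0⟩ := h.cov (f 0)
    refine ⟨{x0}, rfl, ?_, ?_⟩
    · intro x hx
      rw [Finset.mem_singleton.1 hx]
      exact ⟨0, hx0⟩
    · intro x hx y hy _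
      rw [Finset.mem_singleton.1 hx, Finset.mem_singleton.1 hy]
  obtain ⟨F, hF1, hF2, hF3⟩ := many h hno (W.card * m)
  have hb : ∀ x : G, Fr (D + R) o f x → ∃ b : G, Fr D o f b ∧ x⁻¹ * b ∈ W := by
    rintro x ⟨z, hz⟩
    obtain ⟨b, hb⟩ := h.cov (f z)
    refine ⟨b, ⟨z, hb⟩, hW _ ?_⟩
    rw [← dist_smul x o, smul_smul, mul_inv_cancel_left]
    have t := dist_triangle (x • o) (f z) (b • o)
    rw [dist_comm (f z) (b • o)] at t
    push_cast at hz ⊢
    linarith
  choose! b hb1 hb2 using fun x (hx : x ∈ F) => hb x (hF2 x hx)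
  obtain ⟨w, hwW, hwc⟩ := Finset.exists_lt_card_fiber_of_mul_lt_card_of_maps_to hb2
    (n := m) (by rw [hF1]; omega)
  obtain ⟨F', hF', hc'⟩ := Finset.exists_subset_card_eq (Nat.succ_le_of_lt hwc)
  have hin : ∀ x ∈ F', x ∈ F ∧ x * w = b x := by
    intro x hx
    have h1 := Finset.mem_filter.1 (hF' hx)
    refine ⟨h1.1, ?_⟩
    rw [← h1.2, mul_inv_cancel_left]
  refine ⟨F'.image fun x => x * w, ?_, ?_, ?_⟩
  · rw [Finset.card_image_of_injective _ (mul_left_injective w), hc']
  · intro y hy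
    obtain ⟨x, hx, rfl⟩ := Finset.mem_image.1 hy
    rw [(hin x hx).2]
    exact hb1 x (hin x hx).1
  · intro y hy y' hy' hs
    obtain ⟨x, hx, rfl⟩ := Finset.mem_image.1 hy
    obtain ⟨x', hx', rfl⟩ := Finset.mem_image.1 hy'
    have hwR : dist o (w⁻¹ • o) ≤ ((D + D + R : ℕ) : ℝ) := by
      rw [dist_inv_smul', dist_comm]
      exact hW' w hwW
    have hle : (3 * (R + L) + (D + D + 1)) * (W.card * m) + (D + D + R) ≤
        ((3 * (R + L) + (D + D + 1)) * W.card + (D + D + R)) * m := by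
      have h1 : D + D + R ≤ (D + D + R) * m := Nat.le_mul_of_pos_right _ hm
      calc (3 * (R + L) + (D + D + 1)) * (W.card * m) + (D + D + R) ≤
            (3 * (R + L) + (D + D + 1)) * (W.card * m) + (D + D + R) * m := by omega
        _ = ((3 * (R + L) + (D + D + 1)) * W.card + (D + D + R)) * m := by ring
    have h2 := Sim.shift (hs.mono hle) hwR
    rw [mul_inv_cancel_right, mul_inv_cancel_right] at h2
    have h3 := hF3 x (hin x hx).1 x' (hin x' hx').1 h2
    rw [h3]

omit [IsIsometricSMul G X] in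
theorem finite_norm [ProperSpace X] [ProperlyDiscontinuousSMul G X] (o : X) (ρ : ℝ) :
    {g : G | dist o (g • o) ≤ ρ}.Finite := by
  refine (ProperlyDiscontinuousSMul.finite_disjoint_inter_image (Γ := G)
    (isCompact_singleton (x := o)) (isCompact_closedBall o ρ)).subset ?_
  intro g hg
  refine ⟨g • o, ⟨o, rfl, rfl⟩, ?_⟩
  rw [mem_closedBall, dist_comm]
  exact hg

end

/-- the group acts on the flat `f`, up to bounded distance, with a lattice of translations -/
def Per (G : Type*) {X : Type*} [MetricSpace X] [Group G] [MulAction G X] {k : ℕ}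
    (f : E k → X) : Prop :=
  ∃ (φ : Multiplicative (Fin k → ℤ) →* G) (b : Fin k → E k) (r : ℝ),
    Function.Injective φ ∧ LinearIndependent ℝ b ∧
    ∀ (n : Fin k → ℤ) (z : E k),
      dist (φ (Multiplicative.ofAdd n) • f z) (f (z + ∑ i, n i • b i)) ≤ r

/-- **views of flats of maximal dimension**: bounded in number, or at least linear -/
theorem views {X : Type*} [MetricSpace X] {G : Type*} [Group G] [MulAction G X] (hG : Geo X G)
    (k : ℕ) (hk : ∀ f : E (k + 1) → X, ¬ Isometry f) (o : X) (D : ℕ)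
    (hD : ∀ p : X, ∃ g : G, dist (g • o) p ≤ D) :
    ∃ R0 : ℕ, ∀ R, R0 ≤ R → ∃ s : ℕ, ∀ f : E k → X, Isometry f →
      (Per G f → ∃ N : ℕ, ∀ (r : ℕ) (F : Finset G), (∀ x ∈ F, Fr D o f x) →
        (∀ x ∈ F, ∀ y ∈ F, Sim R r o f x y → x = y) → F.card ≤ N) ∧
      (¬ Per G f → ∀ m : ℕ, ∃ F : Finset G, F.card = m + 1 ∧ (∀ x ∈ F, Fr D o f x) ∧
        ∀ x ∈ F, ∀ y ∈ F, Sim R (s * m) o f x y → x = y) := by
  classical
  have := hG.proper
  have := hG.isom
  have := hG.disc
  have hpar := Pool.Agent.Y73.HB.t Pool.Agent.Y34.HB.t_conv Pool.Agent.Y34.HB.t_const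
  have hhom := Pool.Agent.Y899.HB.t3 hpar Pool.Agent.Y899.HB.t1 Pool.Agent.Y899.HB.t2
  obtain ⟨M0, hM0⟩ := Pool.Agent.Y929.HB.Thick.t
    (Pool.Agent.Y155.HB.t2 Pool.Agent.Y155.HB.t1) Pool.Agent.Y34.HB.t_lim X G hG k hk
  refine ⟨⌈M0 + 1⌉₊, fun R hR => ?_⟩
  have hR' : M0 + 1 ≤ R := (Nat.le_ceil _).trans (by exact_mod_cast hR)
  obtain ⟨E0, hE0⟩ := corr hG k M0 hM0 ((R : ℝ) + R)
  set L := max E0 D with hL
  set W := (finite_norm (G := G) o ((D + D + R : ℕ) : ℝ)).toFinset with hW
  refine ⟨(3 * (R + L) + (D + D + 1)) * W.card + (D + D + R), fun f hf => ⟨?_, ?_⟩⟩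
  · rintro ⟨φ, b, ρ, -, hb, hρ⟩
    have hfr : ∀ x : G, ∃ n : Fin k → ℤ, Fr D o f x →
        dist o ((φ (Multiplicative.ofAdd n))⁻¹ • x • o) ≤ dist o (f 0) + (∑ i, ‖b i‖) + ρ + D := by
      intro x
      by_cases hx : Fr D o f x
      · obtain ⟨z, hz⟩ := hx
        obtain ⟨n, z', h1, h2⟩ := Pool.Agent.U541.FM.decompose b hb z
        refine ⟨n, fun _ => ?_⟩
        rw [dist_inv_smul']
        have t1 := dist_triangle (φ (Multiplicative.ofAdd n) • o)
          (φ (Multiplicative.ofAdd n) • f z') (x • o)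
        have t2 := dist_triangle (φ (Multiplicative.ofAdd n) • f z') (f z) (x • o)
        have t3 := hρ n z'
        rw [← h1] at t3
        rw [dist_smul] at t1
        have t4 := dist_triangle o (f 0) (f z')
        rw [hf.dist_eq, dist_zero_left] at t4
        rw [dist_comm (f z) (x • o)] at t2
        linarith
      · exact ⟨0, fun h => absurd h hx⟩
    choose n hn using hfr
    set W' := (finite_norm (G := G) o (dist o (f 0) + (∑ i, ‖b i‖) + ρ + D)).toFinset with hW'
    refine ⟨W'.card, fun r F hFr hF => ?_⟩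
    refine Finset.card_le_card_of_injOn (fun x => (φ (Multiplicative.ofAdd (n x)))⁻¹ * x) ?_ ?_
    · intro x hx
      rw [Finset.mem_coe, hW', Set.Finite.mem_toFinset]
      change dist o (((φ (Multiplicative.ofAdd (n x)))⁻¹ * x) • o) ≤ _
      rw [mul_smul]
      exact hn x (hFr x hx)
    · have half : ∀ x y : G, (φ (Multiplicative.ofAdd (n x)))⁻¹ * x =
          (φ (Multiplicative.ofAdd (n y)))⁻¹ * y → Half R r o f x y := by
        intro x y hxy z _
        have e1 : y * x⁻¹ = φ (Multiplicative.ofAdd (n y - n x)) := by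
          rw [ofAdd_sub, map_div, eq_comm, div_eq_mul_inv]
          have : y = φ (Multiplicative.ofAdd (n y)) * ((φ (Multiplicative.ofAdd (n x)))⁻¹ * x) := by
            rw [hxy, mul_inv_cancel_left]
          conv_rhs => rw [this]
          group
        have hnear : Near (fun z => (y * x⁻¹) • f z) f := by
          refine ⟨ρ, fun z => ?_⟩
          rw [e1]
          exact (infDist_le_dist_of_mem (mem_range_self _)).trans (hρ _ z)
        obtain ⟨e, he⟩ := hpar X hG.cn k _ _ ((isometry_smul X (y * x⁻¹)).comp hf) hf hnear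
        have hle := hM0 _ _ _ _ ((isometry_smul X (y * x⁻¹)).comp hf) hf e.isometry he
        have h1 := he.2 z z
        rw [dist_self] at h1
        have h0 := he.1
        simp only [Function.comp_apply] at h0 h1 hle
        have h3 : dist ((y * x⁻¹) • f z) (f (e z)) ^ 2 =
            infDist ((y * x⁻¹) • f 0) (range f) ^ 2 := by
          rw [h1]
          ring
        have h2 : dist ((y * x⁻¹) • f z) (f (e z)) ≤ M0 := by
          rw [(sq_eq_sq₀ dist_nonneg h0).1 h3]
          exact hle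
        refine ⟨e z, ?_⟩
        rw [← dist_smul y, smul_inv_smul, smul_smul]
        linarith
      intro x hx y hy hxy
      exact hF x hx y hy ⟨half x y hxy, half y x hxy.symm⟩
  · intro hno m
    have hg : Good G o f R D L := by
      refine ⟨hf, hD, fun r x y h z hz => ?_, le_max_right _ _⟩
      obtain ⟨w, hw⟩ := hE0 (fun v => x⁻¹ • f (z + v)) (fun w => y⁻¹ • f w)
        ((isometry_smul X x⁻¹).comp (hf.comp (IsometryEquiv.addLeft z).isometry))
        ((isometry_smul X y⁻¹).comp hf) (fun v hv => by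
          obtain ⟨w, hw⟩ := h (z + v) (by
            have t := dist_triangle o (x⁻¹ • f z) (x⁻¹ • f (z + v))
            rw [dist_smul, hf.dist_eq, dist_self_add_right] at t
            have hEL : (E0 : ℝ) ≤ L := by exact_mod_cast le_max_left _ _
            push_cast
            linarith)
          refine ⟨w, ?_⟩
          push_cast at hw
          exact hw)
      refine ⟨w, ?_⟩
      rw [add_zero] at hw
      exact hw.trans hR'
    refine many' hg W (fun w hw => ?_) (fun w hw => ?_) ?_ m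
    · rw [hW, Set.Finite.mem_toFinset]
      exact hw
    · rw [hW, Set.Finite.mem_toFinset] at hw
      exact hw
    · rintro ⟨C, hC⟩
      obtain ⟨φ, b, h1, h2, h3⟩ := Pool.Agent.Y34.HB.closing hhom Pool.Agent.Y809.HB.mini
        Pool.Agent.Y220.HB.t hG k M0 hM0 f hf C hC
      exact hno ⟨φ, b, M0, h1, h2, h3⟩

end Pool.Agent.U541.FV
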